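import Pool.Agent.Work.MP_db9399_lt.Base

/-! # MP_db9399, THEOREM LT, block COMPR: rounds inside a set -/

set_option autoImplicit false

namespace Pool.Agent.Work.MP_db9399_lt.helper14

open Finset Classical
open Pool.Agent.Work.MP_db9399_all (nb)
open Pool.Agent.Work.MP_db9399_nc (nn PEC Mts mem_nb mem_nn)

universe u

theorem stmt_COMPR (hPM : Pool.Agent.Work.MP_db9399_nc.Stmt_PM.{u}) : Stmt_COMPR.{u} := by
  intro V _ G L A E s X hev hnn hX
  have hind : ∀ E' : Finset ℕ, E' ⊆ E → ∃ M : ℕ → V → V, Mts G E' M ∧
      (∀ b ∈ E', ∀ v, M b v ≠ v ↔ v ∈ A ∧ v ∉ X b) ∧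
      ∀ b ∈ E', ∀ v, M b v ≠ v → ¬ L.Adj v (M b v) := by
    intro E'
    induction E' using Finset.induction_on with
    | empty =>
      intro _
      refine ⟨fun _ => id, ⟨?_, ?_, ?_⟩, ?_, ?_⟩ <;> simp
    | insert b0 E' hb0 ih =>
      intro hE
      have hb0E : b0 ∈ E := hE (mem_insert_self _ _)
      have hE' : E' ⊆ E := (subset_insert _ _).trans hE
      obtain ⟨M, hM, hMX, hML⟩ := ih hE'
      have hMsym : ∀ b ∈ E', ∀ v w, M b v = w ↔ M b w = v := by
        intro b hb v w
        constructor
        · rintro rfl
          exact hM.inv b hb v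
        · rintro rfl
          exact hM.inv b hb w
      let G' : SimpleGraph V :=
        { Adj := fun v w => G.Adj v w ∧ ¬ L.Adj v w ∧ ∀ b ∈ E', M b v ≠ w
          symm := ⟨fun v w h => ⟨h.1.symm, fun h' => h.2.1 h'.symm,
            fun b hb h' => h.2.2 b hb ((hMsym b hb w v).mp h')⟩⟩
          loopless := ⟨fun v h => G.loopless.irrefl v h.1⟩ }
      have hadj : ∀ v w, G'.Adj v w ↔ G.Adj v w ∧ ¬ L.Adj v w ∧ ∀ b ∈ E', M b v ≠ w :=
        fun v w => Iff.rfl
      have hRc : (A \ X b0).card + (A ∩ X b0).card = A.card := by
        rw [add_comm]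
        exact card_inter_add_card_sdiff A (X b0)
      have hnn' : ∀ v ∈ A \ X b0, (nn G' (A \ X b0) v).card ≤ s := by
        intro v hv
        rw [mem_sdiff] at hv
        have h1 : nn G' (A \ X b0) v ⊆ (nn G A v ∪ nb L v) ∪ E'.image (fun b => M b v) := by
          intro w hw
          rw [mem_nn, hadj, mem_sdiff] at hw
          rw [mem_union, mem_union, mem_nn, mem_nb, mem_image]
          by_contra hcon
          push Not at hcon
          obtain ⟨⟨h1, h2⟩, h3⟩ := hcon
          exact hw.2.2 ⟨h1 hw.1.1 hw.2.1, h2, h3⟩
        have h2 := card_le_card h1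
        have h3 := card_union_le (nn G A v ∪ nb L v) (E'.image (fun b => M b v))
        have h4 := card_union_le (nn G A v) (nb L v)
        have h5 : (E'.image (fun b => M b v)).card ≤ E'.card := card_image_le
        have h6 := card_le_card hE'
        have h7 := hnn v hv.1
        omega
      obtain ⟨m, hm1, hm2, hm3⟩ := hPM G' (A \ X b0) s (hev b0 hb0E) (by
        have := hX b0 hb0E
        omega) hnn'
      have m0adj : ∀ v, m v ≠ v → G.Adj v (m v) ∧ ¬ L.Adj v (m v) ∧ ∀ b ∈ E', M b v ≠ m v :=
        fun v hv => (hadj _ _).mp (hm3 v ((hm2 v).mp hv))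
      refine ⟨fun b => if b = b0 then m else M b, ⟨?_, ?_, ?_⟩, ?_, ?_⟩
      · intro b hb v
        by_cases h : b = b0
        · simp only [h, if_true]
          exact hm1 v
        · simp only [h, if_false]
          exact hM.inv b (mem_of_mem_insert_of_ne hb h) v
      · intro b hb v
        by_cases h : b = b0
        · simp only [h, if_true]
          exact fun hv => (m0adj v hv).1
        · simp only [h, if_false]
          exact hM.adj b (mem_of_mem_insert_of_ne hb h) v
      · intro b hb b' hb' hbb v
        by_cases h : b = b0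
        · have h' : b' ≠ b0 := fun h' => hbb (h.trans h'.symm)
          simp only [h, h', if_true, if_false]
          exact fun hv he => (m0adj v hv).2.2 b' (mem_of_mem_insert_of_ne hb' h') he.symm
        · by_cases h' : b' = b0
          · simp only [h, h', if_true, if_false]
            intro h1 h2
            exact (m0adj v (by rw [← h2]; exact h1)).2.2 b (mem_of_mem_insert_of_ne hb h) h2
          · simp only [h, h', if_false]
            exact hM.dis b (mem_of_mem_insert_of_ne hb h) b' (mem_of_mem_insert_of_ne hb' h') hbb v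
      · intro b hb v
        by_cases h : b = b0
        · simp only [h, if_true]
          rw [hm2 v, mem_sdiff]
        · simp only [h, if_false]
          exact hMX b (mem_of_mem_insert_of_ne hb h) v
      · intro b hb v
        by_cases h : b = b0
        · simp only [h, if_true]
          exact fun hv => (m0adj v hv).2.1
        · simp only [h, if_false]
          exact hML b (mem_of_mem_insert_of_ne hb h) v
  exact hind E (Subset.refl _)

end Pool.Agent.Work.MP_db9399_lt.helper14
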