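import Pool.Agent.Work.MP_db9399_lt.Base

/-! # MP_db9399, THEOREM LT, block FINR: the last stage on a subset -/

set_option autoImplicit false

namespace Pool.Agent.Work.MP_db9399_lt.helper14

open Finset Classical
open Pool.Agent.Work.MP_db9399_all (nb)
open Pool.Agent.Work.MP_db9399_nc (nn PEC Mts mem_nb mem_nn)

universe u

theorem stmt_FINR (hAE : Stmt_FINAE.{u}) (hAO : Stmt_FINAO.{u}) (hBE : Stmt_FINBE.{u})
    (hBO : Stmt_FINBO.{u}) : Stmt_FINR.{u} := by
  intro V _ R A Cl O st W hRA hWA hOC hst hinj hdeg hdense hev hodd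
  rcases A.eq_empty_or_nonempty with hA | ⟨a0, ha0⟩
  · have hno : ∀ v w, ¬ R.Adj v w := by
      intro v w h
      have := (hRA v w h).1
      rw [hA] at this
      exact absurd this (notMem_empty _)
    refine ⟨fun _ _ => 0, ⟨fun _ _ => rfl, fun v w h => absurd h (hno v w), ?_⟩,
      fun b _ w h => absurd h (hno _ w)⟩
    intro v w hw
    rw [mem_coe, mem_nb] at hw
    exact absurd hw (hno v w)
  · let R' : SimpleGraph {v // v ∈ A} := R.comap Subtype.val
    have hadj : ∀ v w : {v // v ∈ A}, R'.Adj v w ↔ R.Adj v.1 w.1 := fun v w => Iff.rfl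
    obtain ⟨st', hst'⟩ : ∃ st' : ℕ → {v // v ∈ A}, ∀ b ∈ O, (st' b).1 = st b := by
      refine ⟨fun b => if h : st b ∈ A then ⟨st b, h⟩ else ⟨a0, ha0⟩, ?_⟩
      intro b hb
      simp only [hst b hb, dif_pos]
    obtain ⟨W', hW'⟩ : ∃ W' : Finset {v // v ∈ A}, ∀ v : {v // v ∈ A}, v ∈ W' ↔ v.1 ∈ W :=
      ⟨univ.filter (fun v => v.1 ∈ W), fun v => by simp⟩
    have hWc : W'.card = W.card := by
      refine card_bij (fun v _ => v.1) (fun v hv => (hW' v).mp hv)
        (fun v _ w _ h => Subtype.ext h) (fun w hw => ⟨⟨w, hWA hw⟩, (hW' _).mpr hw, rfl⟩)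
    have hVc : Fintype.card {v // v ∈ A} = A.card := by simp
    have hnb : ∀ v : {v // v ∈ A}, (nb R' v).card = (nb R v.1).card := by
      intro v
      refine card_bij (fun w _ => w.1) (fun w hw => ?_)
        (fun v _ w _ h => Subtype.ext h) (fun w hw => ?_)
      · rw [mem_nb] at hw ⊢
        exact hw
      · rw [mem_nb] at hw
        exact ⟨⟨w, (hRA _ _ hw).2⟩, mem_nb.mpr hw, rfl⟩
    have hT : ∀ v : {v // v ∈ A}, (∃ b ∈ O, st' b = v) ↔ (∃ b ∈ O, st b = v.1) := by
      intro v
      constructor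
      · rintro ⟨b, hb, rfl⟩
        exact ⟨b, hb, (hst' b hb).symm⟩
      · rintro ⟨b, hb, h⟩
        exact ⟨b, hb, Subtype.ext ((hst' b hb).trans h)⟩
    have hFD : FD R' Cl O st' W' := by
      refine ⟨hOC, ?_, ?_, ?_⟩
      · intro b hb b' hb' h
        refine hinj hb hb' ?_
        rw [← hst' b hb, ← hst' b' hb', h]
      · intro v
        have h := hdeg v.1 v.2
        rw [hnb v]
        simp only [mem_image] at h ⊢
        simp only [hT v, hW' v]
        convert h
      · rw [hVc, hWc]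
        exact hdense
    have hdone : Done R' Cl O st' := by
      rcases Nat.even_or_odd A.card with he | ho
      · rcases Nat.lt_or_ge Cl.card (O.card + 2 * W.card + 15) with h | h
        · exact hBE R' Cl O st' W' hFD (by rw [hVc]; exact he) (by rw [hWc]; omega)
            (by rw [hWc, hVc]; exact hev he)
        · exact hAE R' Cl O st' W' hFD (by rw [hVc]; exact he) (by rw [hWc]; omega)
      · rcases Nat.lt_or_ge O.card (2 * W.card + 15) with h | h
        · exact hBO R' Cl O st' W' hFD (by rw [hVc]; exact ho) (by rw [hWc]; omega)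
            (by rw [hWc, hVc]; exact hodd ho)
        · exact hAO R' Cl O st' W' hFD (by rw [hVc]; exact ho) (by rw [hWc]; omega)
    obtain ⟨t, ht, htO⟩ := hdone
    let t' : V → V → ℕ := fun v w =>
      if h : v ∈ A ∧ w ∈ A then t ⟨v, h.1⟩ ⟨w, h.2⟩ else 0
    have ht' : ∀ v w (hv : v ∈ A) (hw : w ∈ A), t' v w = t ⟨v, hv⟩ ⟨w, hw⟩ := by
      intro v w hv hw
      simp only [t', hv, hw, and_self, dif_pos]
    refine ⟨t', ⟨?_, ?_, ?_⟩, ?_⟩
    · intro v w
      by_cases hv : v ∈ A
      · by_cases hw : w ∈ A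
        · rw [ht' v w hv hw, ht' w v hw hv, ht.sym]
        · simp only [t', hv, hw, and_false, false_and, dif_neg, not_false_eq_true]
      · simp only [t', hv, and_false, false_and, dif_neg, not_false_eq_true]
    · intro v w h
      rw [ht' v w (hRA v w h).1 (hRA v w h).2]
      exact ht.mem _ _ ((hadj _ _).mpr h)
    · intro v w hw w' hw' h
      rw [mem_coe, mem_nb] at hw hw'
      rw [ht' v w (hRA v w hw).1 (hRA v w hw).2, ht' v w' (hRA v w' hw').1 (hRA v w' hw').2] at h
      have := ht.inj ⟨v, (hRA v w hw).1⟩ (x₁ := ⟨w, (hRA v w hw).2⟩) (x₂ := ⟨w', (hRA v w' hw').2⟩)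
        (by rw [mem_coe, mem_nb]; exact (hadj _ _).mpr hw)
        (by rw [mem_coe, mem_nb]; exact (hadj _ _).mpr hw') h
      exact congrArg Subtype.val this
    · intro b hb w h
      rw [ht' (st b) w (hRA _ w h).1 (hRA _ w h).2]
      have h1 : (⟨st b, (hRA _ w h).1⟩ : {v // v ∈ A}) = st' b := Subtype.ext (hst' b hb).symm
      have h2 := htO b hb ⟨w, (hRA _ w h).2⟩ (by
        rw [hadj, hst' b hb]; exact h)
      rw [h1]
      exact h2

end Pool.Agent.Work.MP_db9399_lt.helper14
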