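import Pool.Agent.Work.MP_db9399_lt.Base

/-! # MP_db9399, THEOREM LT, block TWIN: two labelled halves -/

set_option autoImplicit false

namespace Pool.Agent.Work.MP_db9399_lt.helper14

open Finset Classical
open Pool.Agent.Work.MP_db9399_all (nb)
open Pool.Agent.Work.MP_db9399_nc (nn PEC Mts mem_nb mem_nn)

universe u

theorem stmt_TWIN : Stmt_TWIN.{u} := by
  intro V _ p hp
  have h1 : Fintype.card V = Fintype.card (Bool × Fin p) := by simp [hp]
  obtain ⟨e⟩ := Fintype.card_eq.mp h1
  refine ⟨fun v => (e v).1, fun v => e.symm (!(e v).1, (e v).2), fun v => ((e v).2 : ℕ),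
    ?_, ?_, ?_, ?_, ?_, ?_⟩
  · intro v; simp
  · intro v; simp
  · intro v; simp
  · intro v; exact (e v).2.isLt
  · intro v w h1 h2
    exact e.injective (Prod.ext h1 (Fin.ext h2))
  · intro β i hi
    exact ⟨e.symm (β, ⟨i, hi⟩), by simp, by simp⟩

end Pool.Agent.Work.MP_db9399_lt.helper14
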